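import Mathlib

/-!
# Operators and derivations: definitions in linear algebra
-/

namespace Pool.Agent.Q67.TM

/-- The linear operators on `H`. -/
abbrev LinOp (L H : Type) [Field L] [AddCommGroup H] [Module L H] : Type := Module.End L H

variable {L H G E : Type} [Field L] [AddCommGroup H] [Module L H] [AddCommGroup G] [Module L G]
  [AddCommGroup E] [Module L E]

/-- The elements of even degree which are killed by the operators `op i`. -/
def killedBy {ι : Type} (deg : ℕ → H → Prop) (op : ι → LinOp L H) : Set H :=
  {c | (∃ j, deg (2 * j) c) ∧ ∀ i, op i c = 0}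

/-- The operator `φ` preserves the degrees, is a derivation, has an image of trace zero and kills
the elements of `R`. -/
def IsInf (deg : ℕ → H → Prop) (m : H → H → H) (t : H → L) (R : Set H) (φ : LinOp L H) : Prop :=
  (∀ i x, deg i x → deg i (φ x)) ∧ (∀ x y, φ (m x y) = m (φ x) y + m x (φ y)) ∧
    (∀ x, t (φ x) = 0) ∧ ∀ x ∈ R, φ x = 0

/-- `φ (f y) = f (ψ y)` for all `y`. -/
def Intertwines (f : G → H) (ψ : LinOp L G) (φ : LinOp L H) : Prop := ∀ y, φ (f y) = f (ψ y)

variable (L) in
/-- The elements of `R'` are linear combinations of elements of `R`. -/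
def SpannedBy (R' R : Set H) : Prop := ∀ c ∈ R', c ∈ Submodule.span L R

variable (L) in
/-- The dimension of the span of `R`. -/
noncomputable def spanDim (R : Set H) : ℕ := Set.finrank L R

/-- Every subspace which is stable under the operators `op i` has a complement which is stable
under these operators. -/
def Complemented {ι : Type} (op : ι → LinOp L H) : Prop :=
  ∀ U : Submodule L H, (∀ i, ∀ x ∈ U, op i x ∈ U) →
    ∃ U', IsCompl U U' ∧ ∀ i, ∀ x ∈ U', op i x ∈ U'

/-- The operator `A` has the property `P` and commutes with all operators with the property `P`. -/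
def CentralIn (P : LinOp L H → Prop) (A : LinOp L H) : Prop := P A ∧ ∀ φ, P φ → A * φ = φ * A

/-- There is no nonzero operator `A` with the property `P` which is skew-symmetric with respect to
the pairing `t (x · y)`. -/
def NoSkew (m : H → H → H) (t : H → L) (P : LinOp L H → Prop) : Prop :=
  ∀ A, P A → (∀ x y, t (m (A x) y) = -t (m x (A y))) → A = 0

/-- The operator `φ` is `a ↦ i z a` for a linear combination `z` of elements of `S`. -/
def GivenBy (i : G → H → H) (S : Set G) (φ : LinOp L H) : Prop :=
  ∃ z ∈ Submodule.span L S, ∀ a, φ a = i z a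

/-- The Leibniz rule for the product `a × b` of elements of `G` and `H`:
`D' (a × b) = D a × b + a × A b`. -/
def Leibniz (c : G → H → E) (D : LinOp L G) (A : LinOp L H) (D' : LinOp L E) : Prop :=
  ∀ a b, D' (c a b) = c (D a) b + c a (A b)

/-- The operator kills the elements of `R`. -/
def Kill (R : Set H) (D : LinOp L H) : Prop := ∀ c ∈ R, D c = 0

end Pool.Agent.Q67.TM
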